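import Pool.Agent.W602.GT.Uni

/-!
MP_fa3f7f_ag, Q1: projective varieties given by sums of few high powers, or by few monomials with
large exponents, are of general type or uniruled.
-/

set_option autoImplicit false

namespace Pool.Agent.Results.MP_fa3f7f_ag.HighPowerSystems

open Pool.Agent.W602.GT

/-- Let `V` be an irreducible component, of positive dimension, of a projective variety given by
sums of at most `s` high powers of linear forms, or by forms with at most `s` monomials and highly
divisible exponents. Then `V` is of general type or uniruled. -/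
theorem result {n : ℕ} {ι : Type} {F : ι → MvPolynomial (Fin (n + 1)) ℂ} {s N : ℕ}
    (hF : HighPowers s N F) (hN : 1 ≤ N)
    (hsN : n * ((s + 1) * ((s - 1) * (s - 2) / 2)) ≤ N)
    {K : Type} [Field K] [Algebra ℂ K] {w : ℕ} (hw : 1 ≤ w) {y : Fin (n + 1) → K}
    (hy : SubVar F K w y) (hcomp : IsComponent F y) : GeneralType ℂ K w ∨ Uniruled ℂ K := by
  refine component hF hN ?_ hw hy hcomp
  have h : tn (s - 1) = (s - 1) * (s - 2) / 2 := by
    unfold tn
    rw [Fin.sum_univ_eq_sum_range (fun i => i), Finset.sum_range_id, Nat.sub_sub]
  rw [h]
  exact hsN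

end Pool.Agent.Results.MP_fa3f7f_ag.HighPowerSystems
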