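import Pool.Agent.W619.X.Fin

/-! Uniruled with non-pseudo-effective canonical divisor, or abundant canonical divisor:
quotients of products of curves. -/

set_option autoImplicit false
set_option linter.overlappingInstances false

universe u

open FF IntermediateField Pool.Agent.W619.PQ Pool.Agent.W619.PL Pool.Agent.W619.TW
  Pool.Agent.W619.X

namespace Pool.Agent.Results.MP_fa3f7f_ag.ProductQuotients

/-- Let `L` be the function field of a product of `n` curves `C i` with function fields `F i`, `G` a
finite group of automorphisms of `L` preserving each `F i`, and `X` a projective manifold birational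
to the quotient of the product by `G`. Assume `PosCond`, for instance that each `g ≠ 1` in `G` moves
at least `7` of the curves, or that each `g ≠ 1` moves at least `2` of the curves and each `C i / G`
is irrational or has at least `5` branch points. Then either one of the curves is rational, `X` is
uniruled and `K_X` is not pseudo-effective, or no curve is rational and `K_X` is abundant:
`κ (K_X) = κ_σ (K_X)` is the number of curves of genus at least two. -/
theorem result {L : Type u} [Field L] [Algebra ℂ L] (n : ℕ) (hn : Algebra.trdeg ℂ L = n)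
    (F : Fin n → IntermediateField ℂ L) (hF : ∀ i, IsFF ℂ (F i))
    (hsup : ⨆ i, F i = ⊤)
    (G : Subgroup (L ≃ₐ[ℂ] L)) [Finite G] (hst : ∀ i, ∀ g ∈ G, ∀ z ∈ F i, g z ∈ F i)
    (h : PosCond G F) :
    ((∃ i, ∃ t : F i, ℂ⟮t⟯ = ⊤) ∧ IsUniruled ℂ (fixedField G) n ∧
      ¬ IsPsef ℂ (fixedField G) n fun _ => False) ∨
    ((∀ i, ¬ ∃ t : F i, ℂ⟮t⟯ = ⊤) ∧
      KodGe ℂ (fixedField G) n (fun _ => False) {i | ¬ IsElliptic (F i)}.ncard ∧
      NumLe ℂ (fixedField G) n (fun _ => False) {i | ¬ IsElliptic (F i)}.ncard) := by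
  have h1 := knC n hn F hF (alg_of_sup F hsup) G hst h
  by_cases h2 : ∃ i, ∃ t : F i, ℂ⟮t⟯ = ⊤
  · exact Or.inl ⟨h2, (h1.2 hsup h2).2.2, (h1.2 hsup h2).2.1⟩
  · have h3 : ∀ i, ¬ ∃ t : F i, ℂ⟮t⟯ = ⊤ := fun i hi => h2 ⟨i, hi⟩
    exact Or.inr ⟨h3, (h1.1 h3).1, (h1.1 h3).2 hsup⟩

end Pool.Agent.Results.MP_fa3f7f_ag.ProductQuotients
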